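import Pool.Agent.Helper76.TL.StC

/-!
# Project TL, module DIMEE: dimension of subEE

Adaptation of Pool/Agent/Helper86/W5/M_DimE.lean.
-/

set_option autoImplicit false

namespace Pool.Agent.Helper48.TL

open Pool.Agent.Helper76.TL Pool.Agent.Helper4.TL Pool.Agent.Helper14.W5

section lin

variable {W W' : Type} [AddCommGroup W] [Module ℂ W] [FiniteDimensional ℂ W] [AddCommGroup W']
  [Module ℂ W']

private theorem rn (f : W →ₗ[ℂ] W') (V : Submodule ℂ W) :
    Module.finrank ℂ (V.map f) + Module.finrank ℂ ↥(V ⊓ LinearMap.ker f) =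
      Module.finrank ℂ V := by
  have h := LinearMap.finrank_range_add_finrank_ker (f.domRestrict V)
  rw [LinearMap.range_domRestrict, LinearMap.ker_domRestrict] at h
  have h2 : Module.finrank ℂ ↥((LinearMap.ker f).comap V.subtype) =
      Module.finrank ℂ ↥(V ⊓ LinearMap.ker f) := by
    rw [← Submodule.map_comap_subtype, Submodule.finrank_map_subtype_eq]
  rw [h2] at h
  exact h

private theorem fr_prod (V V' : Submodule ℂ W) :
    Module.finrank ℂ ↥(V.prod V') = Module.finrank ℂ V + Module.finrank ℂ V' := by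
  have h1 : V.prod V' = LinearMap.range (V.subtype.prodMap V'.subtype) := by
    rw [LinearMap.range_prodMap, Submodule.range_subtype, Submodule.range_subtype]
  rw [h1, LinearMap.finrank_range_of_inj, Module.finrank_prod]
  rintro ⟨a, b⟩ ⟨a', b'⟩ h
  simp only [LinearMap.prodMap_apply, Submodule.subtype_apply, Prod.mk.injEq,
    SetLike.coe_eq_coe] at h
  rw [h.1, h.2]

end lin

/-- `4` times the projection onto `inv5 r r' e e'` -/
private def P {m : ℕ} (r r' : Pt m → Pt m) (e e' : ℂ) : (Pt m → ℂ) →ₗ[ℂ] (Pt m → ℂ) where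
  toFun F p := F p + e * F (r p) + e' * F (r' p) + e * e' * F (r (r' p))
  map_add' F F' := by funext p; simp only [Pi.add_apply]; ring
  map_smul' c F := by funext p; simp only [Pi.smul_apply, smul_eq_mul, RingHom.id_apply]; ring

private theorem P_apply {m : ℕ} (r r' : Pt m → Pt m) (e e' : ℂ) (F : Pt m → ℂ) (p : Pt m) :
    P r r' e e' F p = F p + e * F (r p) + e' * F (r' p) + e * e' * F (r (r' p)) := rfl

private theorem anti_s {m : ℕ} {F : Pt m → ℂ} (hF : F ∈ anti5 m) (s : ℤ) (hs : s = 1 ∨ s = -1)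
    (x y : ZMod (5 ^ m)) :
    ∑ i ∈ Finset.range 5, F (x + s * (i * 5 ^ (m - 1)), y) = 0 ∧
      ∑ i ∈ Finset.range 5, F (x, y + s * (i * 5 ^ (m - 1))) = 0 := by
  rcases hs with rfl | rfl
  · have h := hF (x, y)
    simpa using h
  · have h1 := (hF (x - 4 * 5 ^ (m - 1), y)).1
    have h2 := (hF (x, y - 4 * 5 ^ (m - 1))).2
    have hc : ∀ i ∈ Finset.range 5, (((5 - 1 - i : ℕ) : ℕ) : ZMod (5 ^ m)) = 4 - i := by
      intro i hi
      have hi' : i ≤ 4 := by have := Finset.mem_range.1 hi; omega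
      rw [show 5 - 1 - i = 4 - i by omega, Nat.cast_sub hi']
      norm_num
    constructor
    · rw [← Finset.sum_range_reflect]
      rw [← h1]
      refine Finset.sum_congr rfl fun i hi => ?_
      rw [hc i hi]
      congr 2
      push_cast
      ring
    · rw [← Finset.sum_range_reflect]
      rw [← h2]
      refine Finset.sum_congr rfl fun i hi => ?_
      rw [hc i hi]
      congr 2
      push_cast
      ring

private theorem dv_step {m : ℕ} (hm : 1 ≤ m) {s : ℤ} {φ : ZMod (5 ^ m) → ZMod (5 ^ m)}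
    (h : Dv s φ) (x : ZMod (5 ^ m)) (i : ℕ) :
    φ (x + i * 5 ^ (m - 1)) = φ x + s * (i * 5 ^ (m - 1)) := by
  have h1 := h (m - 1) (x + i * 5 ^ (m - 1)) x ⟨i, by ring⟩
  have h2 : (5 : ZMod (5 ^ m)) ^ (m - 1 + 1) = 0 := by
    rw [Nat.sub_add_cancel hm]
    have h3 := ZMod.natCast_self (5 ^ m)
    push_cast at h3
    exact h3
  rw [h2, zero_dvd_iff] at h1
  linear_combination h1

private theorem anti_comp {m n : ℕ} (hm : 1 ≤ m) {r : Pt m → Pt m} (hr : Ty n r) {F : Pt m → ℂ}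
    (hF : F ∈ anti5 m) : (fun p => F (r p)) ∈ anti5 m := by
  rcases hr with ⟨_, φ, φ', hφ, hφ', hr⟩ | ⟨_, s, ψ, ψ', hs, hψ, hψ', hr⟩
  · intro p
    simp only [hr, dv_step hm hφ, dv_step hm hφ']
    exact ⟨(anti_s hF (-1) (Or.inr rfl) (φ p.1) (φ' p.2)).1,
      (anti_s hF (-1) (Or.inr rfl) (φ p.1) (φ' p.2)).2⟩
  · intro p
    simp only [hr, dv_step hm hψ, dv_step hm hψ']
    exact ⟨(anti_s hF s hs (ψ p.2) (ψ' p.1)).2, (anti_s hF s hs (ψ p.2) (ψ' p.1)).1⟩

private theorem P_mem {m n n' : ℕ} (hm : 1 ≤ m) {r r' : Pt m → Pt m} (hk : Kl r r') (hr : Ty n r)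
    (hr' : Ty n' r') {e e' : ℂ} (he : e * e = 1) (he' : e' * e' = 1) {F : Pt m → ℂ}
    (hF : F ∈ anti5 m) : P r r' e e' F ∈ inv5 r r' e e' := by
  obtain ⟨k1, k2, k3⟩ := hk
  have h1 : (fun p => F (r p)) ∈ anti5 m := anti_comp hm hr hF
  have h2 : (fun p => F (r' p)) ∈ anti5 m := anti_comp hm hr' hF
  have h3 : (fun p => F (r (r' p))) ∈ anti5 m := anti_comp hm hr' h1
  refine ⟨?_, fun p => ⟨?_, ?_⟩⟩
  · have h4 : P r r' e e' F = F + e • (fun p => F (r p)) + e' • (fun p => F (r' p)) +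
        (e * e') • (fun p => F (r (r' p))) := by
      funext p
      simp only [P_apply, Pi.add_apply, Pi.smul_apply, smul_eq_mul]
    rw [h4]
    exact Submodule.add_mem _ (Submodule.add_mem _ (Submodule.add_mem _ hF
      (Submodule.smul_mem _ _ h1)) (Submodule.smul_mem _ _ h2)) (Submodule.smul_mem _ _ h3)
  · simp only [P_apply]
    rw [k1 p, ← k3 p, k1 (r' p)]
    linear_combination (-(F (r p)) - e' * F (r (r' p))) * he
  · simp only [P_apply]
    rw [k2 p]
    linear_combination (-(F (r' p)) - e * F (r (r' p))) * he'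

private theorem P_inv {m : ℕ} {r r' : Pt m → Pt m} {e e' : ℂ} (he : e * e = 1)
    (he' : e' * e' = 1) {F : Pt m → ℂ} (hF : F ∈ inv5 r r' e e') : P r r' e e' F = (4 : ℂ) • F := by
  obtain ⟨_, h⟩ := hF
  funext p
  simp only [P_apply, Pi.smul_apply, smul_eq_mul]
  rw [(h (r' p)).1, (h p).1, (h p).2]
  linear_combination (2 * F p) * he + (F p) * he' + F p * e * e * he'

private theorem P_map {m n n' : ℕ} (hm : 1 ≤ m) {r r' : Pt m → Pt m} (hk : Kl r r') (hr : Ty n r)
    (hr' : Ty n' r') {e e' : ℂ} (he : e * e = 1) (he' : e' * e' = 1) :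
    (anti5 m).map (P r r' e e') = inv5 r r' e e' := by
  apply le_antisymm
  · rintro _ ⟨F, hF, rfl⟩
    exact P_mem hm hk hr hr' he he' hF
  · intro F hF
    refine ⟨(4 : ℂ)⁻¹ • F, Submodule.smul_mem _ _ hF.1, ?_⟩
    rw [map_smul, P_inv he he' hF, smul_smul, inv_mul_cancel₀ (by norm_num), one_smul]

private theorem ker_dim {m n n' n'' : ℕ} (hk : S5DimK) (hm : 1 ≤ m) {r r' : Pt m → Pt m}
    (hkl : Kl r r') (hr : Ty n r) (hr' : Ty n' r') (hr'' : Ty n'' (fun p => r (r' p)))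
    (e e' : ℤ) (he : e = 1 ∨ e = -1) (he' : e' = 1 ∨ e' = -1) :
    4 * (Module.finrank ℂ ↥(anti5 m ⊓ LinearMap.ker (P r r' (e : ℂ) (e' : ℂ))) : ℤ) =
      48 * 25 ^ (m - 1) - (e * n + e' * n' + e * e' * n'') * (4 * 5 ^ (m - 1)) := by
  have h1 := (hk m hm).1
  have h2 := (hk m hm).2 r r' n n' n'' e e' hkl hr hr' hr'' he he'
  have hee : (e : ℂ) * (e : ℂ) = 1 := by rcases he with rfl | rfl <;> norm_num
  have hee' : (e' : ℂ) * (e' : ℂ) = 1 := by rcases he' with rfl | rfl <;> norm_num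
  have h3 := rn (P r r' (e : ℂ) (e' : ℂ)) (anti5 m)
  rw [P_map hm hkl hr hr' hee hee', h1] at h3
  have h4 : (Module.finrank ℂ (inv5 r r' (e : ℂ) (e' : ℂ)) : ℤ) +
      (Module.finrank ℂ ↥(anti5 m ⊓ LinearMap.ker (P r r' (e : ℂ) (e' : ℂ))) : ℤ) =
      16 * 25 ^ (m - 1) := by exact_mod_cast h3
  linarith

/-- DIMEE. -/
theorem hDimEE : StEDimE := by
  intro ht hk hs m hm
  obtain ⟨⟨a1, a2, a3, a4⟩, ⟨b1, b2, b3, b4⟩, ⟨c1', c2', c3', c4'⟩, _⟩ := ht m
  -- the two kernels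
  set V1 := anti5 m ⊓ LinearMap.ker (P (ng : Pt m → Pt m) sw ((-1 : ℤ) : ℂ) ((1 : ℤ) : ℂ)) with hV1
  set V2 := anti5 m ⊓ LinearMap.ker (P (c1 : Pt m → Pt m) c2 ((-1 : ℤ) : ℂ) ((1 : ℤ) : ℂ)) with hV2
  have d1 := ker_dim hk hm a1 a2 a3 a4 (-1) 1 (Or.inr rfl) (Or.inl rfl)
  have d2 := ker_dim hk hm b1 b2 b3 b4 (-1) 1 (Or.inr rfl) (Or.inl rfl)
  rw [← hV1] at d1
  rw [← hV2] at d2
  have d3 := (hk m hm).2 (dR 1) c3 0 1 1 1 (-1) c1' c2' c3' c4' (Or.inl rfl) (Or.inr rfl)
  set Q : (Pt m → ℂ) × (Pt m → ℂ) →ₗ[ℂ] (Pt m → ℂ) :=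
    (P (dR 1 : Pt m → Pt m) c3 ((1 : ℤ) : ℂ) ((-1 : ℤ) : ℂ)).comp
      (LinearMap.coprod LinearMap.id LinearMap.id) with hQ
  have hQa : ∀ F, Q F = P (dR 1 : Pt m → Pt m) c3 ((1 : ℤ) : ℂ) ((-1 : ℤ) : ℂ) (F.1 + F.2) :=
    fun _ => rfl
  have hmap : (V1.prod V2).map Q = inv5 (dR 1 : Pt m → Pt m) c3 ((1 : ℤ) : ℂ) ((-1 : ℤ) : ℂ) := by
    apply le_antisymm
    · rintro _ ⟨F, hF, rfl⟩
      rw [hQa]
      exact P_mem hm c1' c2' c3' (by norm_num) (by norm_num)
        (Submodule.add_mem _ hF.1.1 hF.2.1)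
    · intro φ hφ
      obtain ⟨f, hf, l, hl, hfn, hld, hfl⟩ := hs 1 m hm φ hφ.1
      refine ⟨((4 : ℂ)⁻¹ • f, 0), ⟨Submodule.smul_mem _ _ ⟨hf, ?_⟩, Submodule.zero_mem _⟩, ?_⟩
      · rw [SetLike.mem_coe, LinearMap.mem_ker]
        funext p
        simp only [P_apply, Pi.zero_apply]
        rw [hfn p, hfn (sw p)]
        push_cast
        ring
      · rw [hQa, add_zero, map_smul]
        have hPl : P (dR 1 : Pt m → Pt m) c3 ((1 : ℤ) : ℂ) ((-1 : ℤ) : ℂ) l = 0 := by
          funext p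
          simp only [P_apply, Pi.zero_apply]
          rw [hld p, hld (c3 p)]
          push_cast
          ring
        have hsum : φ = f + l := funext fun p => (hfl p).symm
        have hPφ := P_inv (r := (dR 1 : Pt m → Pt m)) (r' := c3) (e := ((1 : ℤ) : ℂ))
          (e' := ((-1 : ℤ) : ℂ)) (by norm_num) (by norm_num) hφ
        have hPf : P (dR 1 : Pt m → Pt m) c3 ((1 : ℤ) : ℂ) ((-1 : ℤ) : ℂ) f = (4 : ℂ) • φ := by
          rw [← hPφ]
          conv_rhs => rw [hsum]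
          rw [map_add, hPl, add_zero]
        rw [hPf, smul_smul, inv_mul_cancel₀ (by norm_num), one_smul]
  have hker : V1.prod V2 ⊓ LinearMap.ker Q = subEE m := by
    ext F
    constructor
    · rintro ⟨⟨⟨h1, h2⟩, ⟨h3, h4⟩⟩, h5⟩
      rw [SetLike.mem_coe, LinearMap.mem_ker] at h2 h4
      rw [SetLike.mem_coe, LinearMap.mem_ker, hQa] at h5
      refine ⟨h1, h3, fun p => ⟨?_, ?_, ?_⟩⟩
      · have := congrFun h2 p
        simp only [P_apply, Pi.zero_apply] at this
        push_cast at this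
        linear_combination this
      · have := congrFun h4 p
        simp only [P_apply, Pi.zero_apply] at this
        push_cast at this
        linear_combination this
      · have := congrFun h5 p
        simp only [P_apply, Pi.zero_apply, Pi.add_apply] at this
        push_cast at this
        linear_combination this
    · rintro ⟨h1, h3, h⟩
      refine ⟨⟨⟨h1, ?_⟩, ⟨h3, ?_⟩⟩, ?_⟩
      · rw [SetLike.mem_coe, LinearMap.mem_ker]
        funext p
        simp only [P_apply, Pi.zero_apply]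
        push_cast
        linear_combination (h p).1
      · rw [SetLike.mem_coe, LinearMap.mem_ker]
        funext p
        simp only [P_apply, Pi.zero_apply]
        push_cast
        linear_combination (h p).2.1
      · rw [SetLike.mem_coe, LinearMap.mem_ker, hQa]
        funext p
        simp only [P_apply, Pi.zero_apply, Pi.add_apply]
        push_cast
        linear_combination (h p).2.2
  have h6 := rn Q (V1.prod V2)
  rw [hmap, hker, fr_prod] at h6
  have h7 : (Module.finrank ℂ (inv5 (dR 1 : Pt m → Pt m) c3 ((1 : ℤ) : ℂ) ((-1 : ℤ) : ℂ)) : ℤ) +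
      (Module.finrank ℂ (subEE m) : ℤ) = (Module.finrank ℂ V1 : ℤ) + (Module.finrank ℂ V2 : ℤ) := by
    exact_mod_cast h6
  zify
  push_cast at d1 d2 d3
  linarith

end Pool.Agent.Helper48.TL
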